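import Mathlib
import Pool.Agent.Q256.T4.Fin

set_option autoImplicit false

/-!
# Vojta's inequality for all quadratic points on almost all pairs

`F i` (`i < t`) is a form of degree `dg i ≥ 1` in `n + 2` variables with integral coefficients of
absolute value at most `T` (`Box (n + 1) (dg i) T` is the set of these forms). `J` is a set of
indices; `X` is the variety `F i = 0` (`i ∉ J`) of the projective space of dimension `n + 1`, and
`D_X` the divisor `∏ F i = 0` (`i ∈ J`) on `X`. The sum of a canonical divisor of `X` and of `D_X`
has degree `∑ dg i - (n + 2)`.

* A quadratic point `x` has homogeneous coordinates `p k + q k √D`, where `D ≠ 1` is squarefree and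
  `p`, `q` are linearly independent integral vectors (`QPt p q D`); so `ℚ(x) = ℚ(√D)`.
* `cont p q D` is the norm of the ideal generated by the coordinates, that is the content of the
  norm of the linear form `∑ (p k + q k √D) Y k`, and `hgt p q D` the absolute logarithmic height of
  `x`: half of the logarithm of `H2 p q D = max_k |p k + q k √D| max_k |p k - q k √D| / cont p q D`.
* `valD F p q D` is the value of `F` at these coordinates, and `nval d F p q D` is its norm divided
  by the norm of the `d`-th power of the ideal generated by the coordinates.
* `N1 S 2 m` is `(1/2) ∑ log p`, the sum over the primes `p` outside `S` which divide `m`. For the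
  product `m` of the `nval (dg i) (F i) p q D` (`i ∈ J`) it is at most the truncated counting
  function `N^(1)_S(D_X, x)`; and `(1/2) log |D|` is at most the logarithmic discriminant `d(x)`.

`Bad J dg S T κ` is the set of the systems `F` for which
`N1 + (1/2) log |D| ≥ (∑ dg i - (n + 2)) h(x) + (t - κ / 2) log T`
is false for some quadratic point `x` of `X` outside `D_X` with `h(x) ≤ (1/2) log T`.
-/

namespace Pool.Agent.Results.MP_71c16a_nt.AllQuadraticPoints

open Pool.Agent.Q256.T4

/-- **Vojta's conjecture with truncated counting function for all quadratic points of height at most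
`(log T) / 2` on almost all pairs `(X, D_X)`**, `X` a complete intersection of hypersurfaces of the
projective space of dimension `n + 1`, `D_X` the sum of at most `dim X - 1` hypersurface sections.
Let `t ≤ n`, `S` a finite set of primes, `η > 0`. Of the systems `F 0, …, F (t - 1)` with integral
coefficients in `[-T, T]` all but `C T ^ (∑ N_i - κ + η)` satisfy, for ALL quadratic points `x` of
`X` outside `D_X` with `h(x) ≤ (1/2) log T`, that the truncated counting function of `D_X` at `x`
plus the logarithmic discriminant of `x` is at least
`(∑ dg i - (n + 2)) h(x) + (t - κ / 2) log T`. Here `N_i` is the number of the coefficients of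
`F i`, and `κ` is an arbitrary real number. -/
theorem result {n t : ℕ} (ht : t ≤ n) (J : Finset (Fin t)) (dg : Fin t → ℕ)
    (hdg : ∀ i, 1 ≤ dg i) (S : Finset ℕ) (η : ℝ) (hη : 0 < η) :
    ∃ C : ℝ, ∀ (T : ℕ) (κ : ℝ), 1 ≤ T →
      ((Bad (n := n) J dg S T κ).ncard : ℝ) ≤
        C * (T : ℝ) ^ (∑ i, ((n + 1 + dg i).choose (n + 1) : ℝ) - κ + η) :=
  bad_count ht J dg hdg S η hη

end Pool.Agent.Results.MP_71c16a_nt.AllQuadraticPoints
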