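import Pool.Agent.Q183.VC.JGrid
import Pool.Agent.Q183.AM.Forms

/-!
# The inequality of Vojta for all algebraic points of products of curves above linear recurrences

For `i ∈ Λ`, a finite set, let `X_i` be a smooth projective curve over a number field, `D_i` a reduced
effective divisor on `X_i` and `f_i : X_i → ℙ¹` a finite map of degree `N_i` over `ℚ` which is
unramified outside the fibres over the rational points `a_{i 1}, …, a_{i q_i}`, and maps the points of
`D_i` to the `a_{i j}` (such a map exists by Belyi's theorem; we may suppose that `a_{i j} ≠ ∞`). Let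
`A_i` be the ring of functions on `X_i` with poles only over `∞`: a Dedekind domain, finite over
`ℚ[f_i]`. Let `y_{i j 0} = f_i - a_{i j}, y_{i j 1}, …` be generators of the radical of the ideal
`(f_i - a_{i j})`, the ideal of the reduced fibre `F_{i j}` over `a_{i j}`. Then `F_i = ∑ F_{i j} ≥ D_i`
and `(deg K_{X_i}) / N_i = q_i - 2 - (∑_j dim (A_i / (y_{i j 0}, y_{i j 1}, …))) / N_i`. The points `P_i`
of `X_i` (not over `∞`) over a number field `L` are the homomorphisms `φ_i : A_i → L`, and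
`λ_v(P_i) = ∑_j max(0, - log max_l |y_{i j l}(P_i)|_v)` is a Weil function of `F_i` at `v`.

Let `X` be the product of the `X_i` and `F = ∑ pr_i^* F_i`. Let `K` be a number field and let
`x_i(s) = X_{i 0}(s) / X_{i 1}(s)`, where the `X_{i k}` are sequences of integers of `K` with linear
recurrences with constant coefficients, such that the values at `x_i(s)` of the equations of the
`a_{i j}` are products `κ μ ^ s ∏ g_{i l}(s) ^ e_l` of powers of such sequences, with arbitrary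
exponents. We show, for all points `P = (P_i)` of `X` of all degrees above `(x_i(s))`, over all number
fields `L` which contain `K`, and for all finite sets `S` of primes,
`m_S(F, P) + ∑_i (deg K_{X_i} / N_i) h(x_i(s)) ≤
  d(L) - d(K) + ε ∑_i h(x_i(s)) + (log N(𝔟)) / [K : ℚ] + ∑_{p ∈ S} log p + C`,
where the product of all different `g_{i l}(s)` is the product of a squarefree ideal and of an ideal
`𝔟` prime to it: for almost all `s` with a constant `C`, with `C + δ s` for all `s`, and with a constant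
`C` for all `s` with `∑_i h(x_i(s)) ≥ c s`. There is no exceptional set.
-/

set_option autoImplicit false

namespace Pool.Agent.Results.MP_71c16a_nt.ProductsAlongRecurrences

open IsDedekindDomain NumberField
open scoped Polynomial

/-- `κ_i μ_i ^ s ∏ g_j(s) ^ e_ij` -/
def val {K : Type} [Field K] [NumberField K] {I J : Type} [Fintype J] (κ μ : I → 𝓞 K)
    (g : J → ℕ → 𝓞 K) (e : I → J → ℕ) (i : I) (s : ℕ) : 𝓞 K :=
  κ i * μ i ^ s * ∏ j, g j s ^ e i j

open Classical in
/-- the indices `j` of the bases whose exponents `e_ij` are not all equal -/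
noncomputable def uneq {I J : Type} [Fintype I] [Fintype J] (e : I → J → ℕ) : Finset J :=
  Finset.univ.filter fun j => ∃ i i', e i j ≠ e i' j

/-- The absolute logarithmic Weil height `h(x)`. -/
noncomputable def height {K : Type} [Field K] [NumberField K] (x : K) : ℝ :=
  (1 / (Module.finrank ℚ K : ℝ)) *
    ((∑ w : InfinitePlace K, (w.mult : ℝ) * Real.log (max 1 (w x))) +
      ∑ᶠ v : HeightOneSpectrum (𝓞 K), Real.log (max 1 (FinitePlace.mk v x)))

/-- the function `f` -/
noncomputable def coord (A : Type) [CommRing A] [Algebra ℚ[X] A] : A := algebraMap ℚ[X] A .X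

/-- `max (0, - log max_i c_i)` -/
noncomputable def minusLog {s : ℕ} (c : Fin (s + 1) → ℝ) : ℝ := max 0 (-Real.log (⨆ i, c i))

open Classical in
/-- The proximity function `m_S(F, P)` of one curve: the sum over the infinite places `w` (with
`mult w = [L_w : ℝ]`) and the primes `v` above the primes of `S` of the local heights
`∑_j max (0, - log max_l |y_{j l}(P)|)`, divided by `[L : ℚ]`. The absolute values are normalised
so that the product formula holds: `|b|_v = N(v) ^ (- v(b))`. -/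
noncomputable def proximity {A : Type} [CommRing A] (S : Finset ℕ) {q : ℕ}
    (u : Fin q → ℕ) (y : ∀ j, Fin (u j + 1) → A)
    (L : Type) [Field L] [NumberField L] (φ : A →+* L) : ℝ :=
  ((∑ w : InfinitePlace L, (w.mult : ℝ) * ∑ j, minusLog (fun i => w (φ (y j i)))) +
    ∑ᶠ v : HeightOneSpectrum (𝓞 L), if ∃ p ∈ S, (p : 𝓞 L) ∈ v.asIdeal then
      ∑ j, minusLog (fun i => FinitePlace.mk v (φ (y j i))) else 0) / Module.finrank ℚ L

/-- The logarithmic discriminant `d(L) = log |disc L| / [L : ℚ]`. -/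
noncomputable def logDisc (L : Type) [Field L] [NumberField L] : ℝ :=
  Real.log |(NumberField.discr L : ℝ)| / Module.finrank ℚ L

/-- `q - 2 - (∑_j dim (A / (y_{j 0}, y_{j 1}, …))) / N`, where `N` is the rank of `A` over `ℚ[f]`:
the number `(deg K_X) / N` of one curve. -/
noncomputable def canonical {A : Type} [CommRing A] [Algebra ℚ A] [Algebra ℚ[X] A] {q : ℕ}
    (u : Fin q → ℕ) (y : ∀ j, Fin (u j + 1) → A) : ℝ :=
  q - 2 - (∑ j, (Module.finrank ℚ (A ⧸ Ideal.span (Set.range (y j))) : ℝ)) / Module.finrank ℚ[X] A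

/-- The inequality of Vojta above `(x_i) ∈ K ^ Λ`, where `B` is the product of the different bases:
for all points `P = (φ_i)` of the product of the curves above `(x_i)`, over all number fields `L` which
contain `K`, and all finite sets `S` of primes, if `(B) = 𝔞 𝔟` with a squarefree ideal `𝔞` prime to
`𝔟`, then `m_S(F, P) + ∑_i (deg K_{X_i} / N_i) h(x_i) ≤
  d(L) - d(K) + ε ∑_i h(x_i) + (log N 𝔟) / [K : ℚ] + ∑_{p ∈ S} log p + C`. -/
def Vojta {K : Type} [Field K] [NumberField K] {Λ : Type} [Fintype Λ] (A : Λ → Type)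
    [∀ i, CommRing (A i)] [∀ i, Algebra ℚ (A i)] [∀ i, Algebra ℚ[X] (A i)] {q : Λ → ℕ}
    (u : ∀ i, Fin (q i) → ℕ) (y : ∀ i j, Fin (u i j + 1) → A i) (B : 𝓞 K) (x : Λ → K)
    (ε C : ℝ) : Prop :=
  ∀ (L : Type) [Field L] [NumberField L] [Algebra K L] (φ : ∀ i, A i →+* L) (S : Finset ℕ),
    (∀ i, φ i (coord (A i)) = algebraMap K L (x i)) → (∀ p ∈ S, p.Prime) →
    ∀ 𝔞 𝔟 : Ideal (𝓞 K), Ideal.span {B} = 𝔞 * 𝔟 → Squarefree 𝔞 → IsCoprime 𝔞 𝔟 →
      ∑ i, proximity S (u i) (y i) L (φ i) + ∑ i, canonical (u i) (y i) * height (x i) ≤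
        logDisc L - logDisc K + ε * ∑ i, height (x i) +
          Real.log (Ideal.absNorm 𝔟) / Module.finrank ℚ K + ∑ p ∈ S, Real.log p + C

open Classical in
private lemma proximity_eq {A : Type} [CommRing A] (S : Finset ℕ) {q : ℕ}
    (u : Fin q → ℕ) (y : ∀ j, Fin (u j + 1) → A)
    (L : Type) [Field L] [NumberField L] (φ : A →+* L) (hz : ∀ j, φ (y j 0) ≠ 0) :
    proximity S u y L φ = Pool.Agent.Q183.VC.W S u y L φ / Module.finrank ℚ L := by
  unfold proximity Pool.Agent.Q183.VC.W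
  refine congrArg (fun t : ℝ => t / Module.finrank ℚ L) ?_
  rw [Finset.sum_add_distrib]
  congr 1
  · rw [Finset.sum_comm]
    refine Finset.sum_congr rfl fun w _ => ?_
    rw [Finset.mul_sum]
    rfl
  · unfold Pool.Agent.W223.AC.mS
    rw [← finsum_sum_comm]
    · refine finsum_congr fun v => ?_
      split_ifs
      · rfl
      · rw [Finset.sum_const_zero]
    · intro j _
      refine (Pool.Agent.Q183.VC.lamF_finite (y j) φ (hz j)).subset fun v hv => ?_
      rw [Function.mem_support] at hv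
      intro h
      apply hv
      rw [h, ite_self]

private theorem height_eq {K : Type} [Field K] [NumberField K] (x : K) :
    Real.log (Height.mulHeight₁ x) = Module.finrank ℚ K * height x :=
  Pool.Agent.W223.AC.MK.height_eq x

private theorem height_nonneg {K : Type} [Field K] [NumberField K] (x : K) : 0 ≤ height x := by
  have h1 := height_eq x
  have h2 : 0 ≤ Real.log (Height.mulHeight₁ x) := Real.log_nonneg (Height.one_le_mulHeight₁ _)
  have h3 : (0 : ℝ) < Module.finrank ℚ K := by exact_mod_cast Module.finrank_pos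
  rw [h1] at h2
  exact nonneg_of_mul_nonneg_right h2 h3

private theorem logHeight_div {K : Type} [Field K] [NumberField K] (X : Fin 2 → 𝓞 K)
    (hX : X 1 ≠ 0) : Height.logHeight (fun k => (X k : K)) =
      Module.finrank ℚ K * height ((X 0 : K) / (X 1 : K)) := by
  have h1 : (X 1 : K) ≠ 0 := RingOfIntegers.coe_ne_zero_iff.mpr hX
  have h2 : (fun k => (X k : K)) = (X 1 : K) • (![(X 0 : K) / (X 1 : K), 1] : Fin 2 → K) := by
    funext k
    rw [Pi.smul_apply, smul_eq_mul]
    fin_cases k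
    · show (X 0 : K) = (X 1 : K) * ((X 0 : K) / (X 1 : K))
      field_simp
    · show (X 1 : K) = (X 1 : K) * 1
      rw [mul_one]
  rw [h2, Height.logHeight_smul_eq_logHeight _ h1, ← height_eq,
    ← Height.logHeight₁_eq_log_mulHeight₁, Height.logHeight₁_eq_logHeight]

/-- **The deduction** from the truncated inequality for the points of the product of the lines. -/
private theorem vojta_of {K : Type} [Field K] [NumberField K] {Λ : Type} [Fintype Λ] (A : Λ → Type)
    [∀ i, CommRing (A i)] [∀ i, IsDedekindDomain (A i)] [∀ i, Algebra ℚ (A i)]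
    [∀ i, Algebra ℚ[X] (A i)] [∀ i, IsScalarTower ℚ ℚ[X] (A i)]
    [∀ i, Module.Finite ℚ[X] (A i)] [∀ i, FaithfulSMul ℚ[X] (A i)]
    {q : Λ → ℕ} (hq : ∀ i, 0 < q i) (a : ∀ i, Fin (q i) → ℚ)
    (u : ∀ i, Fin (q i) → ℕ) (y : ∀ i j, Fin (u i j + 1) → A i)
    (hy0 : ∀ i j, y i j 0 = coord (A i) - algebraMap ℚ[X] (A i) (.C (a i j)))
    (hyr : ∀ i j l, y i j l ∈
      (Ideal.span {coord (A i) - algebraMap ℚ[X] (A i) (.C (a i j))}).radical)
    {ε : ℝ} (hε : 0 < ε) :
    ∃ (T : Finset ℕ) (D : ℝ), (∀ p ∈ T, p ≠ 0) ∧ 0 ≤ D ∧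
      ∀ {J : Λ → Type} [∀ i, Fintype (J i)] (g : ∀ i, J i → ℕ → 𝓞 K)
        (e : ∀ i, Fin (q i) → J i → ℕ) (X : Λ → Fin 2 → ℕ → 𝓞 K) (C : ℝ),
        0 ≤ C → ∀ s : ℕ, (∀ i, X i 1 s ≠ 0) →
        (∀ i j, (X i 0 s : K) / (X i 1 s : K) ≠ (a i j : K)) →
        Pool.Agent.Q183.VC.PIneq T a g e X (Real.exp C) s →
        Vojta A u y (∏ i, ∏ j ∈ uneq (e i), g i j s) (fun i => (X i 0 s : K) / (X i 1 s : K)) ε
          (D + C / Module.finrank ℚ K) := by
  classical
  obtain ⟨M, C₁, hM, hC₁, hj⟩ := Pool.Agent.Q183.VC.joint K A hq a u y hy0 hyr hε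
  refine ⟨M.primeFactors, C₁, fun p hp => (Nat.prime_of_mem_primeFactors hp).ne_zero, hC₁, ?_⟩
  intro J _ g e X C hC s hX1 hxa hP L _ _ _ φ S hφ hS 𝔞 𝔟 k1 k2 k3
  set x : Λ → K := fun i => (X i 0 s : K) / (X i 1 s : K) with hx
  set n : ℝ := (Module.finrank ℚ K : ℝ) with hn
  set m : ℝ := (Module.finrank K L : ℝ) with hm
  have hn0 : 0 < n := by rw [hn]; exact_mod_cast Module.finrank_pos
  have hm0 : 0 < m := by rw [hm]; exact_mod_cast Module.finrank_pos
  have htow : (Module.finrank ℚ L : ℝ) = n * m := by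
    rw [hn, hm]
    exact_mod_cast (Module.finrank_mul_finrank ℚ K L).symm
  have hnm : 0 < n * m := mul_pos hn0 hm0
  have hz0 : ∀ i j, φ i (y i j 0) ≠ 0 := by
    intro i j h
    rw [hy0 i j, map_sub, hφ i, sub_eq_zero] at h
    apply hxa i j
    apply FaithfulSMul.algebraMap_injective K L
    show algebraMap K L (x i) = _
    rw [h, map_ratCast]
    exact eq_ratCast ((φ i).comp ((algebraMap ℚ[X] (A i)).comp Polynomial.C)) (a i j)
  have h1 := hj x hxa L φ S hφ hS
  have h3 := hP 𝔞 𝔟 k1 k2 k3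
  rw [max_eq_left (Real.one_le_exp hC), Real.log_exp] at h3
  have h3' : ∑ i, ((q i : ℝ) - 2) * (n * height (x i)) ≤
      Pool.Agent.W223.CV.cc M.primeFactors (fun v => ∃ i ∈ (Finset.univ : Finset Λ),
        Pool.Agent.Q183.VC.NearA (a i) (x i) v) + Real.log (Ideal.absNorm 𝔟) + C := by
    refine le_trans (le_of_eq ?_) h3
    refine Finset.sum_congr rfl fun i _ => ?_
    rw [logHeight_div (fun k => X i k s) (hX1 i)]
  set N := Pool.Agent.W223.CV.cc M.primeFactors (fun v => ∃ i ∈ (Finset.univ : Finset Λ),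
        Pool.Agent.Q183.VC.NearA (a i) (x i) v) with hN
  rw [← hm, htow] at h1
  set μ : Λ → ℝ := fun i => (∑ j, (Module.finrank ℚ (A i ⧸ Ideal.span (Set.range (y i j))) : ℝ)) /
      Module.finrank ℚ[X] (A i) with hμ
  have hprox : ∑ i, proximity S (u i) (y i) L (φ i) =
      (∑ i, Pool.Agent.Q183.VC.W S (u i) (y i) L (φ i)) / (n * m) := by
    rw [Finset.sum_div]
    refine Finset.sum_congr rfl fun i _ => ?_
    rw [proximity_eq S (u i) (y i) L (φ i) (hz0 i), htow]
  have hdL : logDisc L = Real.log |(discr L : ℝ)| / (n * m) := by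
    rw [← htow]
    rfl
  have hdK : logDisc K = m * Real.log |(discr K : ℝ)| / (n * m) := by
    unfold logDisc
    rw [← hn]
    field_simp
  rw [hprox, hdL, hdK]
  set V := ∑ i, Pool.Agent.Q183.VC.W S (u i) (y i) L (φ i) with hV
  set R := ∑ p ∈ S, Real.log (p : ℝ) with hR'
  set DL := Real.log |(discr L : ℝ)| with hDL
  set DK := Real.log |(discr K : ℝ)| with hDK
  set Nb := Real.log (Ideal.absNorm 𝔟 : ℝ) with hNb
  have e1 : ∑ i, (μ i + ε) * (m * Real.log (Height.mulHeight₁ (x i))) =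
      n * m * ∑ i, μ i * height (x i) + ε * (n * m * ∑ i, height (x i)) := by
    rw [Finset.mul_sum, Finset.mul_sum, Finset.mul_sum, ← Finset.sum_add_distrib]
    refine Finset.sum_congr rfl fun i _ => ?_
    rw [height_eq, ← hn]
    ring
  have e2 : ∑ i, ((q i : ℝ) - 2) * (n * height (x i)) =
      n * ∑ i, ((q i : ℝ) - 2) * height (x i) := by
    rw [Finset.mul_sum]
    exact Finset.sum_congr rfl fun i _ => by ring
  have e3 : ∑ i, canonical (u i) (y i) * height (x i) =
      ∑ i, ((q i : ℝ) - 2) * height (x i) - ∑ i, μ i * height (x i) := by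
    rw [← Finset.sum_sub_distrib]
    refine Finset.sum_congr rfl fun i _ => ?_
    have : canonical (u i) (y i) = (q i : ℝ) - 2 - μ i := rfl
    rw [this]
    ring
  rw [e1] at h1
  rw [e2] at h3'
  rw [e3]
  set Q₂ := ∑ i, ((q i : ℝ) - 2) * height (x i) with hQ₂
  set Mu := ∑ i, μ i * height (x i) with hMu
  set Hs := ∑ i, height (x i) with hHs
  have h4 := mul_le_mul_of_nonneg_left h3' hm0.le
  have h7 : V + n * m * (Q₂ - Mu) ≤
      DL - m * DK + ε * (n * m * Hs) + m * Nb + n * m * R + m * C + n * m * C₁ := by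
    have e4 : m * (n * Q₂) = n * m * Q₂ := by ring
    have e5 : m * (N + Nb + C) = m * N + m * Nb + m * C := by ring
    have e6 : n * m * (Q₂ - Mu) = n * m * Q₂ - n * m * Mu := by ring
    rw [e4, e5] at h4
    rw [e6]
    linarith
  have e7 : V / (n * m) + (Q₂ - Mu) = (V + n * m * (Q₂ - Mu)) / (n * m) := by
    field_simp
  have e8 : DL / (n * m) - m * DK / (n * m) + ε * Hs + Nb / n + R + (C₁ + C / n) =
      (DL - m * DK + ε * (n * m * Hs) + m * Nb + n * m * R + m * C + n * m * C₁) / (n * m) := by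
    field_simp
    ring
  rw [e7, e8]
  exact div_le_div_of_nonneg_right h7 hnm.le

/-- **Main theorem.** For `i ∈ Λ` let `X_{i 0}`, `X_{i 1}` and the bases `g_{i l}` have linear
recurrences, and let the values `den(a_{i j}) X_{i 0}(s) - num(a_{i j}) X_{i 1}(s)` be the
`κ_{i j} μ_{i j} ^ s ∏ g_{i l}(s) ^ e_{i j l}`; let `x_i(s) = X_{i 0}(s) / X_{i 1}(s)`.
(1) For all `η, ε > 0` there is a constant `C` such that the inequality of Vojta with `ε` and `C`
holds for all points above `(x_i(s))`, for all `s` with `X_{i 1}(s) ≠ 0` and `x_i(s) ≠ a_{i j}` except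
for at most `η N` among any `N` consecutive integers, for `N` large and from some point on.
(2) For all `δ, ε > 0` there is a constant `C` such that it holds with `ε` and `C + δ s` for all `s`
with `X_{i 1}(s) ≠ 0` and `x_i(s) ≠ a_{i j}`.
(3) For all `c, ε > 0` there is a constant `C` such that it holds with `ε` and `C` for all `s` with
`X_{i 1}(s) ≠ 0`, `x_i(s) ≠ a_{i j}` and `∑_i h(x_i(s)) ≥ c s`. -/
theorem result {K : Type} [Field K] [NumberField K] {Λ : Type} [Fintype Λ] {J : Λ → Type}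
    [∀ i, Fintype (J i)] (g : ∀ i, J i → ℕ → 𝓞 K)
    (hg : ∀ i j, ∃ E : LinearRecurrence (𝓞 K), E.IsSolution (g i j))
    (X : Λ → Fin 2 → ℕ → 𝓞 K) (hX : ∀ i k, ∃ E : LinearRecurrence (𝓞 K), E.IsSolution (X i k))
    {q : Λ → ℕ} (hq : ∀ i, 0 < q i) (a : ∀ i, Fin (q i) → ℚ) (ha : ∀ i, Function.Injective (a i))
    (κ μ : ∀ i, Fin (q i) → 𝓞 K) (hμ : ∀ i j, μ i j ≠ 0) (e : ∀ i, Fin (q i) → J i → ℕ)
    (hL : ∀ i j s, ((a i j).den : 𝓞 K) * X i 0 s - ((a i j).num : 𝓞 K) * X i 1 s =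
      val (κ i) (μ i) (g i) (e i) j s)
    (A : Λ → Type) [∀ i, CommRing (A i)] [∀ i, IsDedekindDomain (A i)] [∀ i, Algebra ℚ (A i)]
    [∀ i, Algebra ℚ[X] (A i)] [∀ i, IsScalarTower ℚ ℚ[X] (A i)]
    [∀ i, Module.Finite ℚ[X] (A i)] [∀ i, FaithfulSMul ℚ[X] (A i)]
    (u : ∀ i, Fin (q i) → ℕ) (y : ∀ i j, Fin (u i j + 1) → A i)
    (hy0 : ∀ i j, y i j 0 = coord (A i) - algebraMap ℚ[X] (A i) (.C (a i j)))
    (hyr : ∀ i j l, y i j l ∈
      (Ideal.span {coord (A i) - algebraMap ℚ[X] (A i) (.C (a i j))}).radical) :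
    let x : ℕ → Λ → K := fun s i => (X i 0 s : K) / (X i 1 s : K)
    let Off : ℕ → Prop := fun s => (∀ i, X i 1 s ≠ 0) ∧ ∀ i j, x s i ≠ (a i j : K)
    let V : ℝ → ℝ → ℕ → Prop := fun ε C s =>
      Vojta A u y (∏ i, ∏ j ∈ uneq (e i), g i j s) (x s) ε C
    (∀ η ε : ℝ, 0 < η → 0 < ε → ∃ (C : ℝ) (T z : ℕ), ∀ t N : ℕ, z ≤ t → T ≤ N →
      (({s | t ≤ s ∧ s < t + N ∧ Off s ∧ ¬ V ε C s}.ncard : ℕ) : ℝ) ≤ η * N) ∧
    (∀ δ ε : ℝ, 0 < δ → 0 < ε → ∃ C : ℝ, ∀ s : ℕ, Off s → V ε (C + δ * s) s) ∧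
    ∀ c ε : ℝ, 0 < c → 0 < ε → ∃ C : ℝ, ∀ s : ℕ, Off s → c * s ≤ ∑ i, height (x s i) →
      V ε C s := by
  classical
  intro x Off V
  have hn0 : (0 : ℝ) < Module.finrank ℚ K := by exact_mod_cast Module.finrank_pos
  have hL' : ∀ i j t, Pool.Agent.Q183.VC.eqn K (a i) j 0 * X i 0 t +
      Pool.Agent.Q183.VC.eqn K (a i) j 1 * X i 1 t =
      Pool.Agent.Q183.AM.hval (κ i) (μ i) (g i) (e i) j t := by
    intro i j t
    refine Eq.trans ?_ (hL i j t)
    show ((a i j).den : 𝓞 K) * X i 0 t + (-((a i j).num : 𝓞 K)) * X i 1 t = _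
    ring
  have hoff : ∀ s, Off s → ∀ i j, Pool.Agent.Q183.AM.hval (κ i) (μ i) (g i) (e i) j s ≠ 0 := by
    rintro s ⟨h1, h2⟩ i j h3
    have h4 : val (κ i) (μ i) (g i) (e i) j s = 0 := h3
    rw [← hL i j s] at h4
    have h5 := congrArg (algebraMap (𝓞 K) K) h4
    rw [map_sub, map_mul, map_mul, map_natCast, map_intCast, map_zero] at h5
    apply h2 i j
    have h6 : (X i 1 s : K) ≠ 0 := RingOfIntegers.coe_ne_zero_iff.mpr (h1 i)
    have h7 : ((a i j).den : K) ≠ 0 := by exact_mod_cast (a i j).den_nz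
    show (X i 0 s : K) / (X i 1 s : K) = _
    rw [Rat.cast_def, div_eq_div_iff h6 h7]
    linear_combination h5
  have part2 : ∀ δ ε : ℝ, 0 < δ → 0 < ε → ∃ C : ℝ, ∀ s : ℕ, Off s → V ε (C + δ * s) s := by
    intro δ ε hδ hε
    obtain ⟨T, D, hT, hD, hdeg⟩ := vojta_of (K := K) A hq a u y hy0 hyr hε
    have hEE := Pool.Agent.Q183.VC.jgrid Pool.Agent.Q183.AM.mEE g hg X hX a ha κ μ hμ e hL' T hT
    have mono : Pool.Agent.Q183.AR.MonoC fun C s =>
        (∀ i j, Pool.Agent.Q183.AM.hval (κ i) (μ i) (g i) (e i) j s ≠ 0) →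
        (∀ i, X i 1 s ≠ 0) → Pool.Agent.Q183.VC.PIneq T a g e X C s :=
      fun C C' s hCC h1 h2 h3 => Pool.Agent.Q183.VC.pineq_mono T a g e X C C' s hCC (h1 h2 h3)
    have triv : ∀ s, ∃ C, (∀ i j, Pool.Agent.Q183.AM.hval (κ i) (μ i) (g i) (e i) j s ≠ 0) →
        (∀ i, X i 1 s ≠ 0) → Pool.Agent.Q183.VC.PIneq T a g e X C s := by
      intro s
      set B : ℝ := ∑ i, ((q i : ℝ) - 2) * Height.logHeight (fun k => (X i k s : K)) with hB
      refine ⟨Real.exp |B|, fun _ _ 𝔞 𝔟 _ _ _ => ?_⟩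
      rw [max_eq_left (Real.one_le_exp (abs_nonneg _)), Real.log_exp, ← hB]
      have h0 := le_abs_self B
      have h1 : 0 ≤ Pool.Agent.W223.CV.cc T (fun v => ∃ i ∈ (Finset.univ : Finset Λ),
          Pool.Agent.Q183.VC.NearA (a i) ((X i 0 s : K) / (X i 1 s : K)) v) :=
        finsum_nonneg fun v => Pool.Agent.W223.CV.ct_nonneg _ _ v
      have h2 : 0 ≤ Real.log (Ideal.absNorm 𝔟) := Real.log_natCast_nonneg _
      linarith
    obtain ⟨C, hC, h⟩ := Pool.Agent.Q183.AM.ee_form hEE mono triv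
      (δ * Module.finrank ℚ K) (mul_pos hδ hn0)
    refine ⟨D + C / Module.finrank ℚ K, fun s hs => ?_⟩
    have h1 := hdeg g e X (C + δ * Module.finrank ℚ K * s) (by positivity) s hs.1 hs.2
      (h s (hoff s hs) hs.1)
    have h2 : D + (C + δ * Module.finrank ℚ K * s) / Module.finrank ℚ K =
        D + C / Module.finrank ℚ K + δ * s := by
      field_simp
      ring
    rw [h2] at h1
    exact h1
  refine ⟨fun η ε hη hε => ?_, part2, fun c ε hc hε => ?_⟩
  · obtain ⟨T, D, hT, hD, hdeg⟩ := vojta_of (K := K) A hq a u y hy0 hyr hε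
    have hAA := Pool.Agent.Q183.VC.jgrid Pool.Agent.Q183.AM.mAA g hg X hX a ha κ μ hμ e hL' T hT
    obtain ⟨C, T', z, hC, h⟩ := Pool.Agent.Q183.AM.aa_form hAA η hη
    refine ⟨D + C / Module.finrank ℚ K, T', z, fun t N ht hN =>
      Pool.Agent.Q183.AM.ncard_form (h t N ht hN) ?_⟩
    rintro s ⟨k1, k2⟩ k3
    exact k2 (hdeg g e X C hC s k1.1 k1.2 (k3 (hoff s k1) k1.1))
  · obtain ⟨C, h⟩ := part2 (ε / 2 * c) (ε / 2) (by positivity) (by positivity)
    refine ⟨C, fun s hs hcs L _ _ _ φ S hφ hS 𝔞 𝔟 h1 h2 h3 => ?_⟩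
    refine (h s hs L φ S hφ hS 𝔞 𝔟 h1 h2 h3).trans ?_
    have h4 : ε / 2 * c * s ≤ ε / 2 * ∑ i, height (x s i) := by
      rw [mul_assoc]
      exact mul_le_mul_of_nonneg_left hcs (by positivity)
    have h5 : ε * ∑ i, height (x s i) = ε / 2 * ∑ i, height (x s i) +
      ε / 2 * ∑ i, height (x s i) := by ring
    rw [h5]
    linarith

end Pool.Agent.Results.MP_71c16a_nt.ProductsAlongRecurrences
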