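import Mathlib
import Pool.Agent.Q273.V.Main

/-!
# Vojta's inequality for the points of degree at most three near almost every real number, with the
sharp multiple of the discriminant

The curve is the projective line over `ℚ`, the divisor is a real point `ξ` with the proximity function
`m(ξ, x) = prox ξ f`, an algebraic number `x` of degree `s` is given by its minimal polynomial
`f ∈ ℤ[T]`, `h(x) = height f` is its absolute logarithmic height and `d(x) = logDisc x` is the
logarithmic discriminant of the field `ℚ(x)`. Vojta's inequality is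
`m(ξ, x) ≤ (2 + ε) h(x) + d(x) + C` (the canonical height is `-2 h`).

For almost every real number `ξ` it holds for ALL algebraic numbers `x` of degree at most three, with
`d(x) / 2` instead of `d(x)`; the factor `1 / 2` is optimal, and so is the factor `2` of `h(x)`. For the
algebraic numbers of degree `s` it holds with `s e(s) d(x)`, where `e(s)` is an exponent for the number
of the fields of degree `s` with bounded discriminant, `e(s) = O((log s) ^ 2)`.
-/

set_option autoImplicit false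

namespace Pool.Agent.Results.MP_71c16a_nt.SharpForPointsOfDegreeThree

open Polynomial IntermediateField MeasureTheory

/-- The absolute logarithmic height `(log M(f)) / deg f` of the roots of an irreducible `f ∈ ℤ[X]`
(`M` is the Mahler measure). -/
noncomputable def height (f : ℤ[X]) : ℝ :=
  Real.log (f.map (Int.castRingHom ℂ)).mahlerMeasure / f.natDegree

/-- The proximity function `m(ξ, x)` of the real point `ξ`: the average over the conjugates `z` of
`x`, i.e. the roots of `f`, of `log (max(1,|z|) max(1,|ξ|) / |ξ - z|)`. -/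
noncomputable def prox (ξ : ℝ) (f : ℤ[X]) : ℝ :=
  ((f.map (Int.castRingHom ℂ)).roots.map fun z =>
    Real.log (max 1 ‖z‖ * max 1 |ξ| / ‖(ξ : ℂ) - z‖)).sum / f.natDegree

open Classical in
/-- The logarithmic discriminant `d(x)` of the field `ℚ(x)`. -/
noncomputable def logDisc (x : ℂ) : ℝ :=
  if _ : NumberField ℚ⟮x⟯ then
    Real.log |(NumberField.discr ℚ⟮x⟯ : ℝ)| / Module.finrank ℚ ℚ⟮x⟯ else 0

/-- `f` is the minimal polynomial over `ℤ` of the algebraic number `x` of degree `s`. -/
def IsPoint (s : ℕ) (f : ℤ[X]) (x : ℂ) : Prop :=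
  Irreducible f ∧ f.natDegree = s ∧ aeval x f = 0

/-- **Vojta's inequality for points of degree at most three near almost every real number.**
There is `e : ℕ → ℝ` with `0 ≤ e s ≤ (s + 2) (s - 1) / (4 (s - s / p))`, where `p` is the least prime
factor of `s`, and `limsup e(s) / (log s) ^ 2 ≤ 1 / (8 (log 2) ^ 2)`, such that for almost all real
numbers `ξ`:
(A) for all `ε > 0` there is `C` such that ALL algebraic numbers `x` of degree at most three satisfy
`m(ξ, x) ≤ (2 + ε) h(x) + d(x) / 2 + C`;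
(B) for all `s ≥ 2` and `ε > 0` there is `C` such that ALL algebraic numbers `x` of degree `s` satisfy
`m(ξ, x) ≤ (2 + ε) h(x) + s e(s) d(x) + C`;
(C) for all `s ≥ 1` there is `C` such that `m(ξ, x) ≥ 2 h(x) + d(x) / 2 - C` for infinitely many
algebraic numbers `x` of degree `s` (and their conjugates). -/
theorem result : ∃ e : ℕ → ℝ,
    (∀ s : ℕ, 2 ≤ s → 0 ≤ e s ∧
      e s ≤ (((s + 2) * (s - 1) : ℕ) : ℝ) / (4 * ((s - s / s.minFac : ℕ) : ℝ))) ∧
    (∀ c : ℝ, 1 / (8 * (Real.log 2) ^ 2) < c →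
      ∀ᶠ s : ℕ in Filter.atTop, e s ≤ c * (Real.log s) ^ 2) ∧
    ∀ᵐ ξ : ℝ,
      (∀ ε : ℝ, 0 < ε → ∃ C : ℝ, ∀ (s : ℕ) (f : ℤ[X]) (x : ℂ), 1 ≤ s → s ≤ 3 → IsPoint s f x →
        prox ξ f ≤ (2 + ε) * height f + logDisc x / 2 + C) ∧
      (∀ s : ℕ, 2 ≤ s → ∀ ε : ℝ, 0 < ε → ∃ C : ℝ, ∀ (f : ℤ[X]) (x : ℂ), IsPoint s f x →
        prox ξ f ≤ (2 + ε) * height f + s * e s * logDisc x + C) ∧
      (∀ s : ℕ, 1 ≤ s → ∃ C : ℝ, {f : ℤ[X] | Irreducible f ∧ f.natDegree = s ∧
        ∀ x : ℂ, aeval x f = 0 → 2 * height f + logDisc x / 2 - C ≤ prox ξ f}.Infinite) := by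
  obtain ⟨e, he1, he2, he3⟩ := Q273.V.fldg
  refine ⟨e, he2, he1, ?_⟩
  filter_upwards [Q273.V.low3, Q273.V.alls (fun n hn => (he2 n hn).1) he3, Q273.V.opt]
    with ξ h1 h2 h3
  refine ⟨fun ε hε => ?_, fun s hs ε hε => ?_, h3⟩
  · obtain ⟨C, hC⟩ := h1 ε hε
    exact ⟨C, fun s f x hs1 hs3 hx =>
      hC f x hx.1 (hs1.trans hx.2.1.ge) (hx.2.1.le.trans hs3) hx.2.2⟩
  · obtain ⟨C, hC⟩ := h2 s hs ε hε
    exact ⟨C, fun f x hx => hC f x hx.1 hx.2.1 hx.2.2⟩

end Pool.Agent.Results.MP_71c16a_nt.SharpForPointsOfDegreeThree
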