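import Mathlib
import Pool.Agent.Q51.UF.Pairs
import Pool.Agent.Q51.HG.SmoothCI

set_option autoImplicit false

/-!
# Vojta's inequality for algebraic integral points of all degrees on all general pairs over all number
fields, without exceptional set and uniformly in the pair, at the points with sparse coordinates

Let `F 1, …, F q` be forms of degrees `d 1, …, d q > 0` in `n + 1` variables with algebraic
coefficients, and let `C` be a proper subset of `{1, …, q}`. Let `X` be the complete intersection
`F c = 0`, `c ∈ C`, in projective `n`-space (all of it, if `C` is empty) and `D` the divisor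
`∑_{b ∉ C} (F b = 0)` of `X`. Suppose that `2 n + 1 ≤ ∑ d i + |C|` (for `X` the projective space: the
divisor `D` has degree at least `2 n + 1`). For every `r` there is a nonzero polynomial `h` with
integral coefficients in the coefficients of the forms such that for all forms over all number fields
with `h (F) ≠ 0` (100 percent of the pairs over every number field) the hypersurfaces are smooth and
meet transversally, and such that for every finitely generated group `Γ` of algebraic numbers there
are constants `A` and `e` with the following properties, for ALL these pairs at once: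

* (heights) every algebraic point `P` of `X - D`, of ANY degree, with coordinates of the form
  `x = ∑ u j V j`, `j < r`, and `F b (x) = w b * z b` for `b ∉ C`, where the `u j` and the `w b` have a
  power in `Γ` and the vectors `V j` and the numbers `z b` are ANY algebraic ones, satisfies
  `h(P) ≤ A (1 + h(F) + h(1 : V) + ∑_{b ∉ C} h(z b))`,
  `h(F)` the height of the coefficients of the forms;
* (Mordell-Lang and Bogomolov property) for all vectors `V j` of algebraic numbers there are at most
  `A (1 + h(F) + h(1 : V)) ^ e` algebraic points of `X - D` with coordinates `x = ∑ u j s j V j`, where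
  the `u j` and the `F b (x)`, `b ∉ C`, have a power in `Γ` and `h(1 : s) < ε`; here `ε > 0` depends
  only on `r` and the `d i`.

If `Γ` is the group of `S`-units of a number field and all `z b = 1`, then the points are `S`-integral
with respect to `D`, so that `∑_{ν ∈ S} λ_D(P, ν)` is `h_D(P)` up to a bounded function. Vojta's
inequality `h_{K_X}(P) + ∑_{ν ∈ S} λ_D(P, ν) ≤ ε h(P) + d_k(P) + O(1)`, for the points of degree at
most `r` outside a proper closed subset, is for such points
`(∑ d i - n - 1) h(P) ≤ ε h(P) + d_k(P) + O(1)`, with `d_k(P) ≥ 0`; the points above satisfy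
`(∑ d i - n - 1) h(P) ≤ A' (1 + h(F) + h(1 : V))`: without discriminant, without the term `ε h(P)`,
without exceptional set, without bound for the degree, and with an explicit dependence on the pair.
-/

namespace Pool.Agent.Results.MP_71c16a_nt.UniformIntegralPoints

open MvPolynomial
open scoped LinearAlgebra.Projectivization
open Pool.Agent.Helper259.AbsHt

/-- The algebraic numbers. -/
abbrev Qbar : Type := AlgebraicClosure ℚ

/-- The indices of the coefficients of `q` forms of degrees `d i` in `n + 1` variables. -/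
abbrev Index (n : ℕ) {q : ℕ} (d : Fin q → ℕ) : Type :=
  (i : Fin q) × {α : Fin (n + 1) →₀ ℕ // α.degree = d i}

/-- The value of the polynomial `h` at the coefficients of the forms `F i`. -/
noncomputable def valueAt {n q : ℕ} {d : Fin q → ℕ} {K : Type} [Field K]
    (h : MvPolynomial (Index n d) ℤ) (F : Fin q → MvPolynomial (Fin (n + 1)) K) : K :=
  aeval (fun x : Index n d => coeff x.2.1 (F x.1)) h

/-- The hypersurfaces `F i = 0` are smooth and meet transversally: in every point of projective space
(over any field `Ω ⊇ K`) the gradients of those `F i` that vanish there are linearly independent. -/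
def Transversal {n q : ℕ} {K : Type} [Field K] (F : Fin q → MvPolynomial (Fin (n + 1)) K) : Prop :=
  ∀ (Ω : Type) [Field Ω] [Algebra K Ω] (x : Fin (n + 1) → Ω), x ≠ 0 →
    LinearIndependent Ω (fun i : {i // aeval x (F i) = 0} => fun k => aeval x (pderiv k (F i.1)))

instance finite_index {n q : ℕ} (d : Fin q → ℕ) : Finite (Index n d) :=
  Pool.Agent.Q51.UF.finite_CI d

/-- The height `h(F)`: the absolute logarithmic height of the point with the projective coordinates
`1` and the coefficients of the forms `F i`. -/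
noncomputable def formsHeight {n q : ℕ} (d : Fin q → ℕ) (F : Fin q → MvPolynomial (Fin (n + 1)) Qbar) : ℝ :=
  absLogHeight (fun o : Option (Index n d) => o.elim (1 : Qbar) (fun x => coeff x.2.1 (F x.1)))

/-- The height `h(1 : V)` of a sequence of vectors. -/
noncomputable def vectorsHeight {n r : ℕ} (V : Fin r → Fin (n + 1) → Qbar) : ℝ :=
  absLogHeight (fun o : Option (Fin r × Fin (n + 1)) => o.elim (1 : Qbar) (fun p => V p.1 p.2))

/-- The height `h(1 : s)`. -/
noncomputable def scalarsHeight {r : ℕ} (s : Fin r → Qbar) : ℝ :=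
  absLogHeight (fun o : Option (Fin r) => o.elim (1 : Qbar) s)

/-- The height `h(z) = h(z : 1)` of a number. -/
noncomputable def numberHeight (z : Qbar) : ℝ := absLogHeight ![z, 1]

/-- `u` has a power in `Γ` -/
def HasPower (Γ : Subgroup Qbarˣ) (u : Qbarˣ) : Prop := ∃ m : ℕ, 0 < m ∧ u ^ m ∈ Γ

/-- The point `x` is on `X`, and the `F b (x)`, `b ∉ C`, have a power in `Γ`. -/
def PairPoint {n q : ℕ} (C : Finset (Fin q)) (F : Fin q → MvPolynomial (Fin (n + 1)) Qbar)
    (Γ : Subgroup Qbarˣ) (x : Fin (n + 1) → Qbar) : Prop :=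
  (∀ c ∈ C, aeval x (F c) = 0) ∧
    ∀ b, b ∉ C → ∃ w : Qbarˣ, HasPower Γ w ∧ aeval x (F b) = (w : Qbar)

/-- The points of `X - D` with coordinates `x = ∑ u j s j V j`, where the `u j` and the `F b (x)`,
`b ∉ C`, have a power in `Γ` and `h(1 : s) < ε`. -/
def nearPoints {n q r : ℕ} (C : Finset (Fin q)) (F : Fin q → MvPolynomial (Fin (n + 1)) Qbar)
    (Γ : Subgroup Qbarˣ) (ε : ℝ) (V : Fin r → Fin (n + 1) → Qbar) :
    Set (ℙ Qbar (Fin (n + 1) → Qbar)) :=
  {P | ∃ (u : Fin r → Qbarˣ) (s : Fin r → Qbar) (h : (fun i => ∑ j, (u j : Qbar) * s j * V j i) ≠ 0),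
    (∀ j, HasPower Γ (u j)) ∧ scalarsHeight s < ε ∧ P = Projectivization.mk Qbar _ h ∧
      PairPoint C F Γ (fun i => ∑ j, (u j : Qbar) * s j * V j i)}

theorem valueAt_eq {n q : ℕ} {d : Fin q → ℕ} {K : Type} [Field K]
    (h : MvPolynomial (Index n d) ℤ) (F : Fin q → MvPolynomial (Fin (n + 1)) K) :
    valueAt h F = Pool.Agent.Q51.HG.sp d F h := rfl

theorem transversal_of {n q : ℕ} {d : Fin q → ℕ} {h : MvPolynomial (Index n d) ℤ}
    (hh : ∀ (L : Type) [Field L] (F : Fin q → MvPolynomial (Fin (n + 1)) L),
      (∀ i, (F i).IsHomogeneous (d i)) → Pool.Agent.Q51.HG.sp d F h ≠ 0 →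
      ∀ x : Fin (n + 1) → L, x ≠ 0 →
      LinearIndependent L (fun i : {i // eval x (F i) = 0} => fun k =>
        eval x (pderiv k (F i.1))))
    {K : Type} [Field K] (F : Fin q → MvPolynomial (Fin (n + 1)) K)
    (hF : ∀ i, (F i).IsHomogeneous (d i)) (hv : valueAt h F ≠ 0) : Transversal F := by
  intro Ω _ _ x hx
  have h1 := hh Ω (fun i => map (algebraMap K Ω) (F i)) (fun i => (hF i).map _) (by
    rw [Pool.Agent.Q51.HG.sp_map]
    exact (map_ne_zero _).2 hv) x hx
  have h2 : ∀ i k, eval x (pderiv k (map (algebraMap K Ω) (F i))) = aeval x (pderiv k (F i)) := by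
    intro i k
    rw [pderiv_map, eval_map, ← aeval_def]
  have h3 : ∀ i, eval x (map (algebraMap K Ω) (F i)) = aeval x (F i) := by
    intro i
    rw [eval_map, ← aeval_def]
  simp only [h2] at h1
  refine (h1.comp (fun i : {i // aeval x (F i) = 0} => ⟨i.1, by rw [h3]; exact i.2⟩) ?_)
  intro i i' hii
  simpa [Subtype.ext_iff] using hii

/-- **Main theorem.** There are `ε > 0` and a nonzero polynomial `h` such that for all forms `F i` of
degrees `d i` with algebraic coefficients and `h (F) ≠ 0` the hypersurfaces `F i = 0` are smooth and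
meet transversally, and such that for every finitely generated group `Γ` of algebraic numbers there
are `A` and `e` such that for ALL these forms and all vectors `V j` of algebraic numbers:
the algebraic points `x = ∑ u j V j` of `X` with `F b (x) = w b * z b`, `b ∉ C`, where the `u j` and the
`w b` have a power in `Γ` and the `z b` are arbitrary, satisfy
`h(x) ≤ A (1 + h(F) + h(1 : V) + ∑_{b ∉ C} h(z b))`, and there are at most
`A (1 + h(F) + h(1 : V)) ^ e` points in `nearPoints C F Γ ε V`. -/
theorem result (n : ℕ) {q : ℕ} (d : Fin q → ℕ) (hd0 : ∀ i, 0 < d i) (C : Finset (Fin q))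
    (hC : ∃ b, b ∉ C) (hd : 2 * n + 1 ≤ ∑ i, d i + C.card) (r : ℕ) :
    ∃ (ε : ℝ) (h : MvPolynomial (Index n d) ℤ), 0 < ε ∧ h ≠ 0 ∧
      (∀ (K : Type) [Field K] (F : Fin q → MvPolynomial (Fin (n + 1)) K),
        (∀ i, (F i).IsHomogeneous (d i)) → valueAt h F ≠ 0 → Transversal F) ∧
      ∀ Γ : Subgroup Qbarˣ, Γ.FG → ∃ (A : ℝ) (e : ℕ), 0 ≤ A ∧
        ∀ (F : Fin q → MvPolynomial (Fin (n + 1)) Qbar) (V : Fin r → Fin (n + 1) → Qbar),
          (∀ i, (F i).IsHomogeneous (d i)) → valueAt h F ≠ 0 →
          (∀ (u : Fin r → Qbarˣ) (w z : Fin q → Qbarˣ),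
            (∀ j, HasPower Γ (u j)) → (∀ b, b ∉ C → HasPower Γ (w b)) →
            (∀ c ∈ C, aeval (fun i => ∑ j, (u j : Qbar) * V j i) (F c) = 0) →
            (∀ b, b ∉ C → aeval (fun i => ∑ j, (u j : Qbar) * V j i) (F b) = (w b : Qbar) * z b) →
            absLogHeight (fun i => ∑ j, (u j : Qbar) * V j i) ≤
              A * (1 + formsHeight d F + vectorsHeight V +
                ∑ b ∈ Finset.univ \ C, numberHeight (z b))) ∧
          (nearPoints C F Γ ε V).Finite ∧
          ((nearPoints C F Γ ε V).ncard : ℝ) ≤ A * (1 + formsHeight d F + vectorsHeight V) ^ e := by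
  classical
  obtain ⟨b0, hb⟩ := hC
  have hgm := Pool.Agent.Q51.HG.noGm n d C hd
  obtain ⟨h1, h10, h1s⟩ := Pool.Agent.Q51.HG.gen_snc n d
  obtain ⟨h2, h20, h2s⟩ := Pool.Agent.Q51.HG.gen_noCurP d C hgm (r + q)
  refine ⟨Pool.Agent.Y215.AF.eps (∑ i, d i + 1) (r + q), h1 * h2,
    Pool.Agent.Y215.AF.eps_pos _ _ (by omega), mul_ne_zero h10 h20, fun K _ F hF hv => ?_,
    fun Γ hΓ => ?_⟩
  · rw [valueAt_eq, map_mul] at hv
    exact transversal_of h1s F hF (left_ne_zero_of_mul hv)
  obtain ⟨A, hA0, hA⟩ := Pool.Agent.Q51.UF.pair_heightsU (r := r) d C b0 hb (hd0 b0) h2 h2s Γ hΓ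
  obtain ⟨B, e, hB0, hB⟩ := Pool.Agent.Q51.UF.pair_nearU (r := r) d C b0 hb (hd0 b0) h2 h2s Γ hΓ
  refine ⟨max A B, e, le_max_of_le_left hA0, fun F V hF hv => ?_⟩
  rw [valueAt_eq, map_mul] at hv
  have hv2 := right_ne_zero_of_mul hv
  have hF0 : 0 ≤ formsHeight d F := absLogHeight_nonneg _
  have hV0 : 0 ≤ vectorsHeight V := absLogHeight_nonneg _
  refine ⟨fun u w z hu hw hx0 hx => ?_, ?_⟩
  · have h3 := hA F u V w z hF hv2 hu hw hx0 hx
    have h4 : ∑ i, (if i ∈ C then (0 : ℝ) else Pool.Agent.Y215.SK.h1 (z i : Qbar)) =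
        ∑ b ∈ Finset.univ \ C, numberHeight (z b) := by
      rw [← Finset.sum_filter_add_sum_filter_not Finset.univ (· ∈ C)]
      have h5 : ∑ i ∈ Finset.univ.filter (· ∈ C),
          (if i ∈ C then (0 : ℝ) else Pool.Agent.Y215.SK.h1 (z i : Qbar)) = 0 :=
        Finset.sum_eq_zero fun i hi => if_pos (Finset.mem_filter.1 hi).2
      rw [h5, zero_add]
      refine Finset.sum_congr ?_ fun i hi => ?_
      · ext i
        simp
      · rw [if_neg (Finset.mem_sdiff.1 hi).2]
        rfl
    rw [h4] at h3
    refine h3.trans ?_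
    have h6 : 0 ≤ ∑ b ∈ Finset.univ \ C, numberHeight (z b : Qbar) :=
      Finset.sum_nonneg fun b _ => absLogHeight_nonneg _
    exact mul_le_mul_of_nonneg_right (le_max_left _ _) (by
      change 0 ≤ 1 + formsHeight d F + vectorsHeight V + _
      linarith)
  · obtain ⟨h3, h4⟩ := hB F V hF hv2
    refine ⟨h3, h4.trans ?_⟩
    exact mul_le_mul_of_nonneg_right (le_max_right _ _) (pow_nonneg (by
      change 0 ≤ 1 + formsHeight d F + vectorsHeight V
      linarith) _)

end Pool.Agent.Results.MP_71c16a_nt.UniformIntegralPoints
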